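import Pool.Agent.Helper48.ET.Pair
import Pool.Agent.Helper3.WT.Defs

/-! Project WT, piece A1: the bounds for two code words with finest level `0`
(adapted from `pair_self`, `pair_lt` of Helper48/ET/Pair.lean). -/

set_option autoImplicit false

namespace Pool.Agent.Helper40.WT

open Finset
open Pool.Agent.Helper48.ET
open Pool.Agent.Helper3.WT

variable {p : ℕ} [Fact p.Prime]

/-- WT-A1a (adapt `pair_self` of Helper48/ET/Pair.lean to `b = 0`) -/
theorem pair_self0 {C N M : ℕ} (hC : 8 ≤ C) (hNM : N ≤ M) (hp : p ≠ 2)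
    (θ : Par p) (hlam : θ.lam ≠ 0) (t w : ℕ → ZMod p) :
    (Sol C 0 N θ 0 N θ t w).ncard ≤ 2 ^ (Nat.log C M + 1) := by
  have hlam2 : θ.lam + θ.lam ≠ 0 := by
    have h2 : (2 : ZMod p) ≠ 0 := by
      intro h
      have h3 : ((2 : ℕ) : ZMod p) = 0 := by exact_mod_cast h
      rw [ZMod.natCast_eq_zero_iff] at h3
      have h4 := (Nat.prime_dvd_prime_iff_eq (Fact.out : p.Prime) Nat.prime_two).1 h3
      exact hp h4
    rw [← two_mul]
    exact mul_ne_zero h2 hlam
  obtain ⟨I, hI⟩ : ∃ I, I = Nat.log C M := ⟨_, rfl⟩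
  rw [← hI]
  have hN : N < C ^ (I + 1) := by
    rw [hI]
    exact lt_of_le_of_lt hNM (Nat.lt_pow_succ_log_self (by omega) M)
  set S := Sol C 0 N θ 0 N θ t w with hS
  let q : ℕ → ℕ := fun i => C ^ i * mm C (2 * N + C ^ 0) i
  have hchain := chain_two (S := S) sol_finite q (lo := 0) (hi := I + 1) (by omega)
    (fun i h1 _ => step_shared hC h1 h1 rfl rfl hlam2)
  have htop : q (I + 1) = 0 := by
    change C ^ (I + 1) * mm C (2 * N + C ^ 0) (I + 1) = 0
    rw [mm_top (by omega) (by omega) hN (by omega), mul_zero]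
  have hbase : q 0 = N := by
    change C ^ 0 * mm C (2 * N + C ^ 0) 0 = N
    rw [mul_comm]
    refine mm_base (by omega) ?_
    rw [pow_zero]
    exact one_dvd N
  rw [htop, hbase] at hchain
  calc S.ncard ≤ (trunc N '' S).ncard := card_le_trunc
    _ ≤ 2 ^ (I + 1 - 0) * (trunc 0 '' S).ncard := hchain
    _ ≤ 2 ^ (I + 1 - 0) * 1 := Nat.mul_le_mul_left _ (trunc_zero_card S)
    _ = 2 ^ (I + 1) := by rw [mul_one, Nat.sub_zero]

/-- WT-A1b (adapt `pair_lt` of Helper48/ET/Pair.lean to `b = b' = 0`) -/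
theorem pair_lt0 {C N' N M : ℕ} (hC : 8 ≤ C) (hev : Even C) (hN' : 0 < N') (hlt : N' < N)
    (hNM : N ≤ M) (θ' : Par p) :
    ∃ P : MvPolynomial (Option (ℕ × ℕ × ℕ)) (Om p), P ≠ 0 ∧ P.totalDegree ≤ 2 * Del C + 1 ∧
      ∀ θ : Par p, MvPolynomial.eval θ.val P ≠ 0 → ∀ t w : ℕ → ZMod p,
        (Sol C 0 N' θ' 0 N θ t w).ncard ≤ GG C M := by
  unfold GG
  obtain ⟨I, hI⟩ : ∃ I, I = Nat.log C M := ⟨_, rfl⟩
  rw [← hI]
  have hNI : N < C ^ (I + 1) := by
    rw [hI]
    exact lt_of_le_of_lt hNM (Nat.lt_pow_succ_log_self (by omega) M)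
  have hC0 : 0 < C := by omega
  have hC1 : 1 < C := by omega
  have hC00 : C ^ 0 = 1 := pow_zero C
  obtain ⟨κ', hκ'⟩ : ∃ κ', κ' = 2 * N' + C ^ 0 := ⟨_, rfl⟩
  obtain ⟨κ, hκ⟩ : ∃ κ, κ = 2 * N + C ^ 0 := ⟨_, rfl⟩
  have hD : κ' + 1 < κ := by omega
  -- the scale `e` of the difference
  have hex : ∃ e, κ ≤ κ' + C ^ e := ⟨κ, by
    have := (Nat.lt_pow_self hC1 : κ < C ^ κ)
    omega⟩
  classical
  obtain ⟨e, he⟩ : ∃ e, e = Nat.find hex := ⟨_, rfl⟩
  have he1 : κ ≤ κ' + C ^ e := he ▸ Nat.find_spec hex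
  have hbe : 1 ≤ e := by
    by_contra hcon
    have h0 : e = 0 := by omega
    rw [h0, hC00] at he1
    omega
  have he2 : κ' + C ^ (e - 1) < κ := by
    have := Nat.find_min hex (m := e - 1) (by omega)
    omega
  obtain ⟨j0, hj0⟩ := one_change (C := C) (κ' := κ') (κ := κ) (e := e) (by omega) hev (by omega) he1
  -- vanishing above the top
  have htop : ∀ i, I < i → mm C κ i = 0 := fun i hi => by
    rw [hκ]; exact mm_top (by omega) (by omega) hNI hi
  have htop' : ∀ i, I < i → mm C κ' i = 0 := fun i hi => by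
    rw [hκ']; exact mm_top (by omega) (by omega) (lt_trans hlt hNI) hi
  -- the final step
  have final : ∀ s, (s + 1 = e ∨ s = e) → mm C κ' (s + 1) = mm C κ (s + 1) →
      ∃ P : MvPolynomial (Option (ℕ × ℕ × ℕ)) (Om p), P ≠ 0 ∧ P.totalDegree ≤ Del C ∧
      ∀ θ : Par p, MvPolynomial.eval θ.val P ≠ 0 → ∀ t w : ℕ → ZMod p,
        FB (Sol C 0 N' θ' 0 N θ t w) (C ^ (s + 1) * mm C κ (s + 1)) N' (N0 C) := by
    intro s hs hms
    rw [hκ, hκ'] at hms
    rw [hκ]
    by_cases hcase : 3 ≤ e
    · -- far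
      have h1 : 2 * N' + C ^ 0 + 3 * C ^ (e - 3 + 1) ≤ 2 * N + C ^ 0 := by
        have h2 : e - 1 = (e - 3 + 1) + 1 := by omega
        have h3 : 8 * C ^ (e - 3 + 1) ≤ C ^ (e - 1) := by
          rw [h2, pow_succ C (e - 3 + 1), mul_comm (C ^ (e - 3 + 1)) C]
          exact Nat.mul_le_mul_right _ hC
        omega
      exact step_far (g := e - 3) hC θ' hN' (by omega) (by omega) (by omega) (by omega) hms h1
    · -- bottom
      have hd : ∀ K : ℕ, C ^ 0 ∣ K := fun K => by
        rw [pow_zero]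
        exact one_dvd K
      exact step_bottom hC θ' le_rfl (by omega) (by omega) (hd N) (hd N') hlt.le hms
  -- the polynomial controlling `lam`
  obtain ⟨P0, hP0, hP0d, hP0e⟩ := lam_poly (p := p) θ'
  -- shared steps
  have shared : ∀ θ : Par p, θ'.lam + θ.lam ≠ 0 → ∀ t w : ℕ → ZMod p, ∀ i,
      mm C κ' (i + 1) = mm C κ (i + 1) → mm C κ' i = mm C κ i →
      FB (Sol C 0 N' θ' 0 N θ t w) (C ^ (i + 1) * mm C κ (i + 1)) (C ^ i * mm C κ i) 2 := by
    intro θ hθ t w i h1 h2
    rw [hκ, hκ'] at h1 h2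
    rw [hκ]
    exact step_shared hC (Nat.zero_le i) (Nat.zero_le i) h1 h2 hθ
  have hNN := one_le_N0 C
  by_cases hgood : ∀ i, e ≤ i → mm C κ' i = mm C κ i
  · -- no change at the levels `≥ e`
    obtain ⟨P1, hP1, hP1d, hP1e⟩ := final (e - 1) (Or.inl (by omega))
      (by rw [show e - 1 + 1 = e by omega]; exact hgood e le_rfl)
    refine ⟨P0 * P1, mul_ne_zero hP0 hP1, ?_, ?_⟩
    · refine (MvPolynomial.totalDegree_mul _ _).trans ?_
      omega
    · intro θ hθ t w
      rw [map_mul] at hθ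
      have hl := hP0e θ (left_ne_zero_of_mul hθ)
      have hf := hP1e θ (right_ne_zero_of_mul hθ) t w
      rw [show e - 1 + 1 = e by omega] at hf
      set S := Sol C 0 N' θ' 0 N θ t w with hS
      have hSf : S.Finite := sol_finite
      let q : ℕ → ℕ := fun i => C ^ i * mm C κ i
      obtain ⟨T, hT⟩ : ∃ T, T = max e (I + 1) := ⟨_, rfl⟩
      have hTe : e ≤ T := by omega
      have hqT : q T = 0 := by
        change C ^ T * mm C κ T = 0
        rw [htop T (by omega), mul_zero]
      have hch := chain_two (S := S) hSf q hTe (fun i h1 _ =>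
        shared θ hl t w i (hgood _ (by omega)) (hgood _ h1))
      rw [hqT] at hch
      have hfin := chain_card hSf hf
      have h2 : 2 ^ (T - e) ≤ 2 ^ (I + 1) := Nat.pow_le_pow_right (by norm_num) (by omega)
      calc S.ncard ≤ (trunc N' '' S).ncard := card_le_trunc
        _ ≤ N0 C * (trunc (q e) '' S).ncard := hfin
        _ ≤ N0 C * (2 ^ (T - e) * (trunc 0 '' S).ncard) := Nat.mul_le_mul_left _ hch
        _ ≤ N0 C * (2 ^ (I + 1) * 1) :=
            Nat.mul_le_mul_left _ (Nat.mul_le_mul h2 (trunc_zero_card S))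
        _ ≤ 2 ^ (I + 1) * N0 C ^ 2 := by
            rw [mul_one, mul_comm, pow_two]
            exact Nat.mul_le_mul_left _ (Nat.le_mul_of_pos_left _ hNN)
  · -- one change
    have hbad : e ≤ j0 ∧ mm C κ' j0 ≠ mm C κ j0 := by
      by_contra hcon
      apply hgood
      intro i hi
      by_cases h : i = j0
      · subst h
        by_contra h2
        exact hcon ⟨hi, h2⟩
      · exact hj0 i hi h
    have hj0I : j0 ≤ I := by
      by_contra hcon
      exact hbad.2 ((htop' j0 (by omega)).trans (htop j0 (by omega)).symm)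
    by_cases hje : j0 = e
    · -- the change is at level `e`
      subst hje
      obtain ⟨P1, hP1, hP1d, hP1e⟩ := final j0 (Or.inr rfl) (hj0 _ (by omega) (by omega))
      refine ⟨P0 * P1, mul_ne_zero hP0 hP1, ?_, ?_⟩
      · refine (MvPolynomial.totalDegree_mul _ _).trans ?_
        omega
      · intro θ hθ t w
        rw [map_mul] at hθ
        have hl := hP0e θ (left_ne_zero_of_mul hθ)
        have hf := hP1e θ (right_ne_zero_of_mul hθ) t w
        set S := Sol C 0 N' θ' 0 N θ t w with hS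
        have hSf : S.Finite := sol_finite
        let q : ℕ → ℕ := fun i => C ^ i * mm C κ i
        have hqT : q (I + 1) = 0 := by
          change C ^ (I + 1) * mm C κ (I + 1) = 0
          rw [htop (I + 1) (by omega), mul_zero]
        have hch := chain_two (S := S) hSf q (lo := j0 + 1) (hi := I + 1) (by omega) (fun i h1 _ =>
          shared θ hl t w i (hj0 _ (by omega) (by omega)) (hj0 _ (by omega) (by omega)))
        rw [hqT] at hch
        have hfin := chain_card hSf hf
        have h2 : 2 ^ (I + 1 - (j0 + 1)) ≤ 2 ^ (I + 1) :=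
          Nat.pow_le_pow_right (by norm_num) (by omega)
        calc S.ncard ≤ (trunc N' '' S).ncard := card_le_trunc
          _ ≤ N0 C * (trunc (q (j0 + 1)) '' S).ncard := hfin
          _ ≤ N0 C * (2 ^ (I + 1 - (j0 + 1)) * (trunc 0 '' S).ncard) := Nat.mul_le_mul_left _ hch
          _ ≤ N0 C * (2 ^ (I + 1) * 1) :=
              Nat.mul_le_mul_left _ (Nat.mul_le_mul h2 (trunc_zero_card S))
          _ ≤ 2 ^ (I + 1) * N0 C ^ 2 := by
              rw [mul_one, mul_comm, pow_two]
              exact Nat.mul_le_mul_left _ (Nat.le_mul_of_pos_left _ hNN)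
    · -- the change is above level `e`: merge step
      have hej : e + 1 ≤ j0 := by omega
      obtain ⟨P1, hP1, hP1d, hP1e⟩ := final (e - 1) (Or.inl (by omega))
        (by rw [show e - 1 + 1 = e by omega]; exact hj0 e le_rfl (by omega))
      obtain ⟨P2, hP2, hP2d, hP2e⟩ := step_merge (p := p) (b' := 0) (N' := N') (b := 0) (N := N)
        (j := j0 - 1) hC θ' (by omega) (by omega)
        (by
          rw [← hκ, ← hκ', show j0 - 1 + 2 = j0 + 1 by omega]
          exact hj0 _ (by omega) (by omega))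
        (by
          rw [← hκ, ← hκ']
          exact hj0 _ (by omega) (by omega))
      refine ⟨P0 * P1 * P2, mul_ne_zero (mul_ne_zero hP0 hP1) hP2, ?_, ?_⟩
      · refine (MvPolynomial.totalDegree_mul _ _).trans ?_
        have := MvPolynomial.totalDegree_mul P0 P1
        omega
      · intro θ hθ t w
        rw [map_mul, map_mul] at hθ
        have hl := hP0e θ (left_ne_zero_of_mul (left_ne_zero_of_mul hθ))
        have hf := hP1e θ (right_ne_zero_of_mul (left_ne_zero_of_mul hθ)) t w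
        have hm := hP2e θ (right_ne_zero_of_mul hθ) t w
        rw [show e - 1 + 1 = e by omega] at hf
        rw [← hκ, show j0 - 1 + 2 = j0 + 1 by omega] at hm
        set S := Sol C 0 N' θ' 0 N θ t w with hS
        have hSf : S.Finite := sol_finite
        let q : ℕ → ℕ := fun i => C ^ i * mm C κ i
        have hqT : q (I + 1) = 0 := by
          change C ^ (I + 1) * mm C κ (I + 1) = 0
          rw [htop (I + 1) (by omega), mul_zero]
        have hch1 := chain_two (S := S) hSf q (lo := j0 + 1) (hi := I + 1) (by omega)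
          (fun i h1 _ => shared θ hl t w i (hj0 _ (by omega) (by omega))
            (hj0 _ (by omega) (by omega)))
        rw [hqT] at hch1
        have hmer := chain_card hSf hm
        have hch2 := chain_two (S := S) hSf q (lo := e) (hi := j0 - 1) (by omega)
          (fun i h1 h2 => shared θ hl t w i (hj0 _ (by omega) (by omega))
            (hj0 _ (by omega) (by omega)))
        have hfin := chain_card hSf hf
        have h2 : 2 ^ (j0 - 1 - e) * 2 ^ (I + 1 - (j0 + 1)) ≤ 2 ^ (I + 1) := by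
          rw [← pow_add]
          exact Nat.pow_le_pow_right (by norm_num) (by omega)
        calc S.ncard ≤ (trunc N' '' S).ncard := card_le_trunc
          _ ≤ N0 C * (trunc (q e) '' S).ncard := hfin
          _ ≤ N0 C * (2 ^ (j0 - 1 - e) * (trunc (q (j0 - 1)) '' S).ncard) :=
              Nat.mul_le_mul_left _ hch2
          _ ≤ N0 C * (2 ^ (j0 - 1 - e) * (N0 C * (trunc (q (j0 + 1)) '' S).ncard)) :=
              Nat.mul_le_mul_left _ (Nat.mul_le_mul_left _ hmer)
          _ ≤ N0 C * (2 ^ (j0 - 1 - e) * (N0 C * (2 ^ (I + 1 - (j0 + 1)) *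
                (trunc 0 '' S).ncard))) :=
              Nat.mul_le_mul_left _ (Nat.mul_le_mul_left _ (Nat.mul_le_mul_left _ hch1))
          _ ≤ N0 C * (2 ^ (j0 - 1 - e) * (N0 C * (2 ^ (I + 1 - (j0 + 1)) * 1))) :=
              Nat.mul_le_mul_left _ (Nat.mul_le_mul_left _ (Nat.mul_le_mul_left _
                (Nat.mul_le_mul_left _ (trunc_zero_card S))))
          _ = (2 ^ (j0 - 1 - e) * 2 ^ (I + 1 - (j0 + 1))) * N0 C ^ 2 := by ring
          _ ≤ 2 ^ (I + 1) * N0 C ^ 2 := Nat.mul_le_mul_right _ h2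

end Pool.Agent.Helper40.WT
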